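import Pool.Agent.H90.RG.Targets

/-! G_ZSH: zoom of stationary harmonic maps. -/

namespace Pool.Agent.H86.RGF

open MeasureTheory Metric Set Filter Topology Pool.Agent.H87.SN Pool.Agent.H90.RG
open scoped ContDiff RealInnerProductSpace ENNReal

noncomputable section

variable {n m : ℕ}

theorem nsq_smul {F : Type*} [NormedAddCommGroup F] [NormedSpace ℝ F] (r : ℝ) (L : E n →L[ℝ] F) :
    nsq (r • L) = r ^ 2 * nsq L := by
  unfold nsq
  rw [Finset.mul_sum]
  refine Finset.sum_congr rfl fun i _ => ?_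
  show ‖r • L (bv i)‖ ^ 2 = _
  rw [norm_smul, mul_pow, Real.norm_eq_abs, sq_abs]

theorem zt_inv {c : E n} {r : ℝ} (hr : 0 < r) (y : E n) : r⁻¹ • (zt c r y - c) = y := by
  unfold zt
  rw [add_sub_cancel_left, smul_smul, inv_mul_cancel₀ hr.ne', one_smul]

theorem tst_zoom {F : Type*} [NormedAddCommGroup F] [NormedSpace ℝ F] {φ : E n → F}
    (hφ : IsTest φ) {c : E n} {r : ℝ} (hr : 0 < r) (hsub : ball c (2 * r) ⊆ ball 0 2) :
    IsTest (fun x => φ (r⁻¹ • (x - c))) ∧
      ∀ y v, fderiv ℝ φ y v = r • fderiv ℝ (fun x => φ (r⁻¹ • (x - c))) (zt c r y) v := by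
  obtain ⟨h1, h2, h3⟩ := hφ
  have hr' : r⁻¹ ≠ 0 := (inv_pos.2 hr).ne'
  have hg : ContDiff ℝ ∞ fun x : E n => r⁻¹ • (x - c) :=
    (contDiff_id.sub contDiff_const).const_smul r⁻¹
  obtain ⟨g, hgd⟩ : ∃ g : E n ≃ₜ E n, ∀ x, g x = r⁻¹ • (x - c) :=
    ⟨(Homeomorph.subRight c).trans (Homeomorph.smulOfNeZero r⁻¹ hr'), fun x => rfl⟩
  have hfg : (fun x => φ (r⁻¹ • (x - c))) = φ ∘ g := by
    funext x
    rw [Function.comp_apply, hgd]
  refine ⟨⟨h1.comp hg, ?_, ?_⟩, fun y v => ?_⟩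
  · rw [hfg]
    exact h2.comp_homeomorph g
  · intro x hx
    rw [hfg, tsupport_comp_eq_preimage] at hx
    have h4 : g x ∈ ball (0 : E n) 2 := h3 hx
    rw [hgd, mem_ball_zero_iff, norm_smul, norm_inv, Real.norm_eq_abs, abs_of_pos hr,
      inv_mul_lt_iff₀ hr] at h4
    apply hsub
    rw [mem_ball, dist_eq_norm]
    linarith
  · have h4 : HasFDerivAt (fun x : E n => r⁻¹ • (x - c)) (r⁻¹ • ContinuousLinearMap.id ℝ (E n))
        (zt c r y) := ((hasFDerivAt_id _).sub_const c).const_smul r⁻¹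
    have h5 : HasFDerivAt φ (fderiv ℝ φ y) (r⁻¹ • (zt c r y - c)) := by
      rw [zt_inv hr]
      exact (h1.differentiable (by simp) y).hasFDerivAt
    have h6 : fderiv ℝ (fun x => φ (r⁻¹ • (x - c))) (zt c r y) =
        (fderiv ℝ φ y).comp (r⁻¹ • ContinuousLinearMap.id ℝ (E n)) :=
      (HasFDerivAt.comp (g := φ) (f := fun x : E n => r⁻¹ • (x - c)) (zt c r y) h5 h4).fderiv
    rw [h6]
    show fderiv ℝ φ y v = r • fderiv ℝ φ y (r⁻¹ • v)
    rw [map_smul, smul_smul, mul_inv_cancel₀ hr.ne', one_smul]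

theorem pf_ZSH (h : T_ZCV) : T_ZSH := by
  intro n m N A u G hS c r hr hsub
  obtain ⟨hI, -, hB, hM, hA⟩ := h n c r hr
  have hball : zt c r ⁻¹' ball c (2 * r) = ball 0 2 := by
    have h1 := hB 0 2
    have h2 : zt c r 0 = c := by
      unfold zt
      simp
    rwa [h2, mul_comm r 2] at h1
  have hint : ∀ (F : Type) [NormedAddCommGroup F] [NormedSpace ℝ F] (f : E n → F),
      ∫ y, f (zt c r y) = (r ^ n)⁻¹ • ∫ x, f x := by
    intro F _ _ f
    have h1 := hI F f univ MeasurableSet.univ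
    rwa [preimage_univ, Measure.restrict_univ] at h1
  have hres : (volume : Measure (E n)).restrict (ball c (2 * r)) ≤
      volume.restrict (ball 0 2) := Measure.restrict_mono hsub le_rfl
  refine ⟨⟨⟨?_, ?_, ?_⟩, ?_, ?_, ?_⟩, fun y s => ?_⟩
  · have h1 := (hM (E m) u (ball c (2 * r)) measurableSet_ball).1
      (hS.w12.memLp.mono_measure hres)
    rwa [hball] at h1
  · have h1 := (hM _ G (ball c (2 * r)) measurableSet_ball).1
      (hS.w12.memLp_deriv.mono_measure hres)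
    rw [hball] at h1
    exact h1.const_smul r
  · intro φ hφ v
    obtain ⟨hψ, hd⟩ := tst_zoom hφ hr hsub
    have h1 := hS.w12.weak _ hψ v
    have e1 : ∫ x, (fderiv ℝ φ x v) • u (zt c r x) = (r ^ n)⁻¹ •
        ∫ x, (r • fderiv ℝ (fun x => φ (r⁻¹ • (x - c))) x v) • u x := by
      rw [← hint]
      refine integral_congr_ae (ae_of_all _ fun y => ?_)
      beta_reduce
      rw [hd y v]
    have e2 : ∫ x, φ x • (zg c r G x) v = (r ^ n)⁻¹ •
        ∫ x, φ (r⁻¹ • (x - c)) • (r • G x v) := by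
      rw [← hint _ (fun x => φ (r⁻¹ • (x - c)) • (r • G x v))]
      refine integral_congr_ae (ae_of_all _ fun y => ?_)
      beta_reduce
      rw [zt_inv hr]
      rfl
    rw [e1, e2]
    have e3 : ∫ x, (r • fderiv ℝ (fun x => φ (r⁻¹ • (x - c))) x v) • u x =
        r • ∫ x, (fderiv ℝ (fun x => φ (r⁻¹ • (x - c))) x v) • u x := by
      rw [← integral_smul]
      refine integral_congr_ae (ae_of_all _ fun y => ?_)
      beta_reduce
      rw [smul_assoc]
    have e4 : ∫ x, φ (r⁻¹ • (x - c)) • (r • G x v) = r • ∫ x, φ (r⁻¹ • (x - c)) • G x v := by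
      rw [← integral_smul]
      refine integral_congr_ae (ae_of_all _ fun y => ?_)
      beta_reduce
      rw [smul_comm]
    rw [e3, e4, h1, smul_neg, smul_neg]
  · have h1 := (hA (fun x => u x ∈ N) (ball c (2 * r)) measurableSet_ball).1
      (ae_mono hres hS.mem)
    rwa [hball] at h1
  · intro φ hφ
    obtain ⟨hψ, hd⟩ := tst_zoom hφ hr hsub
    have h1 := hS.harmonic _ hψ
    have e1 : ∫ x, ∑ i : Fin n, (fderiv ℝ φ x (bv i)) • zg c r G x (bv i) = (r ^ n)⁻¹ •
        ∫ x, (r * r) • ∑ i : Fin n,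
          (fderiv ℝ (fun x => φ (r⁻¹ • (x - c))) x (bv i)) • G x (bv i) := by
      rw [← hint _ (fun x => (r * r) • ∑ i : Fin n,
          (fderiv ℝ (fun x => φ (r⁻¹ • (x - c))) x (bv i)) • G x (bv i))]
      refine integral_congr_ae (ae_of_all _ fun y => ?_)
      beta_reduce
      rw [Finset.smul_sum]
      refine Finset.sum_congr rfl fun i _ => ?_
      rw [hd y]
      show (r • fderiv ℝ (fun x => φ (r⁻¹ • (x - c))) (zt c r y) (bv i)) •
        (r • G (zt c r y) (bv i)) = _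
      rw [smul_eq_mul, smul_smul, smul_smul]
      congr 1
      ring
    have e2 : ∫ x, φ x • ∑ i : Fin n, A (u (zt c r x)) (zg c r G x (bv i)) (zg c r G x (bv i)) =
        (r ^ n)⁻¹ • ∫ x, (r * r) • (φ (r⁻¹ • (x - c)) • ∑ i : Fin n,
          A (u x) (G x (bv i)) (G x (bv i))) := by
      rw [← hint _ (fun x => (r * r) • (φ (r⁻¹ • (x - c)) • ∑ i : Fin n,
          A (u x) (G x (bv i)) (G x (bv i))))]
      refine integral_congr_ae (ae_of_all _ fun y => ?_)
      beta_reduce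
      have f1 : ∑ i : Fin n, A (u (zt c r y)) (zg c r G y (bv i)) (zg c r G y (bv i)) =
          (r * r) • ∑ i : Fin n, A (u (zt c r y)) (G (zt c r y) (bv i)) (G (zt c r y) (bv i)) := by
        rw [Finset.smul_sum]
        refine Finset.sum_congr rfl fun i _ => ?_
        show A (u (zt c r y)) (r • G (zt c r y) (bv i)) (r • G (zt c r y) (bv i)) = _
        rw [map_smul, map_smul, smul_apply, smul_smul]
      rw [zt_inv hr, f1, smul_comm]
    rw [e1, e2, integral_smul, integral_smul, h1]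
  · intro X hX
    obtain ⟨hY, hd⟩ := tst_zoom hX hr hsub
    have h1 := hS.stationary _ hY
    have e1 : ∫ x, (nsq (zg c r G x) * ∑ i : Fin n, (fderiv ℝ X x (bv i)) i
      - 2 * ∑ i : Fin n, ∑ j : Fin n, ⟪zg c r G x (bv i), zg c r G x (bv j)⟫ *
        (fderiv ℝ X x (bv i)) j) = (r ^ n)⁻¹ • ∫ x, r ^ 3 * (nsq (G x) * ∑ i : Fin n,
        (fderiv ℝ (fun x => X (r⁻¹ • (x - c))) x (bv i)) i
      - 2 * ∑ i : Fin n, ∑ j : Fin n, ⟪G x (bv i), G x (bv j)⟫ *
        (fderiv ℝ (fun x => X (r⁻¹ • (x - c))) x (bv i)) j) := by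
      rw [← hint _ (fun x => r ^ 3 * (nsq (G x) * ∑ i : Fin n,
        (fderiv ℝ (fun x => X (r⁻¹ • (x - c))) x (bv i)) i
      - 2 * ∑ i : Fin n, ∑ j : Fin n, ⟪G x (bv i), G x (bv j)⟫ *
        (fderiv ℝ (fun x => X (r⁻¹ • (x - c))) x (bv i)) j))]
      refine integral_congr_ae (ae_of_all _ fun y => ?_)
      beta_reduce
      have f1 : ∀ i j, (fderiv ℝ X y (bv i)) j =
          r * (fderiv ℝ (fun x => X (r⁻¹ • (x - c))) (zt c r y) (bv i)) j := by
        intro i j
        rw [hd y]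
        rfl
      have f2 : ∀ i j, ⟪zg c r G y (bv i), zg c r G y (bv j)⟫ =
          r ^ 2 * ⟪G (zt c r y) (bv i), G (zt c r y) (bv j)⟫ := by
        intro i j
        show ⟪r • G (zt c r y) (bv i), r • G (zt c r y) (bv j)⟫ = _
        rw [real_inner_smul_left, real_inner_smul_right]
        ring
      have f3 : nsq (zg c r G y) = r ^ 2 * nsq (G (zt c r y)) := nsq_smul r _
      simp only [f1, f2, f3]
      rw [← Finset.mul_sum, mul_sub]
      have f4 : ∑ i : Fin n, ∑ j : Fin n, r ^ 2 * ⟪G (zt c r y) (bv i), G (zt c r y) (bv j)⟫ *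
          (r * (fderiv ℝ (fun x => X (r⁻¹ • (x - c))) (zt c r y) (bv i)) j) =
          r ^ 3 * ∑ i : Fin n, ∑ j : Fin n, ⟪G (zt c r y) (bv i), G (zt c r y) (bv j)⟫ *
            (fderiv ℝ (fun x => X (r⁻¹ • (x - c))) (zt c r y) (bv i)) j := by
        rw [Finset.mul_sum]
        refine Finset.sum_congr rfl fun i _ => ?_
        rw [Finset.mul_sum]
        refine Finset.sum_congr rfl fun j _ => ?_
        ring
      rw [f4]
      ring
    rw [e1, integral_const_mul, h1, mul_zero, smul_zero]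
  · have h1 := hI ℝ (fun x => nsq (r • G x)) (ball (zt c r y) (r * s)) measurableSet_ball
    rw [hB y s] at h1
    have h2 : ∫ x in ball y s, nsq (zg c r G x) = ∫ y in ball y s, nsq (r • G (zt c r y)) := rfl
    rw [h2, h1]
    have h3 : ∀ x, nsq (r • G x) = r ^ 2 * nsq (G x) := fun x => nsq_smul r _
    simp only [h3]
    rw [integral_const_mul, smul_eq_mul, ← mul_assoc, mul_inv_cancel₀ (pow_pos hr n).ne', one_mul]

end

end Pool.Agent.H86.RGF
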