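import Pool.Agent.H90.RG.Targets

/-! F_DIM: reduction of the dimension. -/

namespace Pool.Agent.H86.RGF

open MeasureTheory Metric Set Filter Topology Pool.Agent.H87.SN Pool.Agent.H90.RG
open scoped ContDiff RealInnerProductSpace ENNReal

theorem nsq_nonneg' {n : ℕ} {F : Type*} [NormedAddCommGroup F] [NormedSpace ℝ F]
    (L : E n →L[ℝ] F) : 0 ≤ nsq L := Finset.sum_nonneg fun i _ => by positivity

theorem nsq_int {n m : ℕ} {G : E n → E n →L[ℝ] E m} {S : Set (E n)}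
    (h : MemLp G 2 (volume.restrict S)) : IntegrableOn (fun x => nsq (G x)) S := by
  unfold nsq
  refine integrable_finsetSum _ fun i _ => ?_
  have h1 : MemLp (fun x => G x (bv i)) 2 (volume.restrict S) :=
    (ContinuousLinearMap.apply ℝ (E m) (bv i : E n)).comp_memLp' h
  exact h1.integrable_norm_pow (by norm_num)

theorem pf_DIM (hM : T_DUM) (hD : T_DML) (hZ : T_ZSH) (hB : T_ZHB) (hH : T_DUH) (hL : T_LTG) :
    T_DIM := by
  intro n m N A hn hN hA hQ C
  obtain ⟨δ', hδ'0, hδ'⟩ := hQ (4 * (4 ^ n * |C|))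
  obtain ⟨K, hK0, hK⟩ := hH n
  obtain ⟨K2, hK20, hK2⟩ := hL n (1 / 4 * (1 / 2)) (by norm_num)
  have hd0 : (0 : ℝ) ≤ ((1 / 4 : ℝ) ^ 2)⁻¹ * (K * δ') := by positivity
  refine ⟨K2 * (((1 / 4 : ℝ) ^ 2)⁻¹ * (K * δ')), by positivity, fun u G hS hC => ?_⟩
  refine hK2 m G _ hd0 hS.w12.memLp_deriv fun c hc => ?_
  have hsub : ball c (2 * (1 / 4)) ⊆ ball (0 : E n) 2 := by
    intro x hx
    rw [mem_ball, dist_eq_norm] at hx
    rw [mem_closedBall, dist_zero_right] at hc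
    rw [mem_ball_zero_iff]
    have := norm_add_le (x - c) c
    rw [sub_add_cancel] at this
    linarith
  obtain ⟨hS', hE⟩ := hZ n m N A u G hS c (1 / 4) (by norm_num) hsub
  refine hB n m G c (1 / 4) (1 / 2) (K * δ') (by norm_num) (by norm_num) (by positivity) ?_
  have hmem : MemLp (zg c (1 / 4) G) 2 (volume.restrict (ball (0 : E n) 2)) := hS'.w12.memLp_deriv
  refine hK m (zg c (1 / 4) G) δ' hmem hδ'0 ?_
  refine hδ' _ _ (hM n m N A _ _ hN hA hS') ?_
  refine ((hD n m (fun y => u (zt c (1 / 4) y)) (zg c (1 / 4) G)).2.1 hmem).2.2.trans ?_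
  refine mul_le_mul_of_nonneg_left ?_ (by norm_num)
  have h1 := hE 0 2
  have h2 : zt c (1 / 4) 0 = c := by
    unfold zt
    simp
  rw [h2] at h1
  have h3 : ∫ x in ball c (1 / 4 * 2), nsq (G x) ≤ |C| := by
    refine le_trans ?_ (hC.trans (le_abs_self C))
    refine setIntegral_mono_set (nsq_int hS.w12.memLp_deriv) (ae_of_all _ fun x => nsq_nonneg' _) ?_
    refine HasSubset.Subset.eventuallyLE ?_
    rw [show (1 / 4 * 2 : ℝ) = 2 * (1 / 4) by norm_num]
    exact hsub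
  have h4 : ∫ x in ball (0 : E n) 2, nsq (zg c (1 / 4) G x) =
      4 ^ n * ((1 / 4 : ℝ) ^ 2 * ∫ x in ball c (1 / 4 * 2), nsq (G x)) := by
    rw [← h1, ← mul_assoc, ← mul_pow]
    norm_num
  rw [h4]
  refine mul_le_mul_of_nonneg_left ?_ (by positivity)
  have h5 : 0 ≤ |C| := abs_nonneg C
  have h6 : (1 / 4 : ℝ) ^ 2 * ∫ x in ball c (1 / 4 * 2), nsq (G x) ≤ (1 / 4 : ℝ) ^ 2 * |C| :=
    mul_le_mul_of_nonneg_left h3 (by positivity)
  linarith

end Pool.Agent.H86.RGF
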